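import Pool.Agent.Work.MP_db9399_ox.All
import Pool.Agent.Work.MP_db9399_h.Interface

/-! # OUTX with H: the input of the engine, `AllO` (helper48, after helper72) -/

set_option autoImplicit false
set_option linter.unusedSectionVars false

namespace Pool.Agent.Work.MP_db9399_oxh

open Finset Classical
open Pool.Agent.Work.MP_db9399_all (nb)
open Pool.Agent.Work.MP_db9399_cg (cdg pk sx sp)
open Pool.Agent.Work.MP_db9399_sg
open Pool.Agent.Work.MP_db9399_en (HH wlk resE resO Wts)
open Pool.Agent.Work.MP_db9399_ox (sdg sgP Krn Mt1 GG nnj rcl mem_nb' GG_card nnj_eq)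
open Pool.Agent.Work.MP_db9399_eo
open Pool.Agent.Work.MP_db9399_h

universe u

variable {V I I' J : Type u} [Fintype V] [Fintype I] [Fintype I'] [Fintype J] {P : ℕ}
  {cl : Fin P → J} {E : SimpleGraph V} {H Gh S : J → SimpleGraph V} {O W U VH K : Finset V}
  {A : J → Finset V} {X Fb : V → Finset (Fin P)} {nd : J → V → Option (I × Bool)} {pr : I → I'}
  {d : ℕ} {D r : J → ℕ} {a a1 β C C' C2 C3 ε1 ρ1 βS ρ2 e2 : ℝ} {L : ℕ}
  {N0 N : Fin P → V → V} {c : V → Option (Fin P)} {Dr : Fin P → Finset V}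

theorem nd_O (hC : ClsH H Gh O W VH A nd pr d D r a β C C') {x : V} (hx : x ∈ O)
    (j : J) : nd j x = none :=
  ((hC.wld j).cov x ((hC.wld j).OA hx)).1 hx

theorem N_O (hC : ClsH H Gh O W VH A nd pr d D r a β C C') (hN : Mt1 S cl W nd N0 N)
    {x : V} (hx : x ∈ O) (b : Fin P) : N b x = N0 b x := by
  by_cases h : N0 b x = x
  · by_cases h' : N b x = x
    · rw [h, h']
    · obtain ⟨i, s, h1, -⟩ := hN.fil b x h h'
      rw [nd_O hC hx] at h1
      cases h1
  · exact hN.ext b x h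

theorem Hsym (hC : ClsH H Gh O W VH A nd pr d D r a β C C') {j : J} {v w : V}
    (h : (H j).Adj v w) : v ∈ W ∧ w ∈ W := ⟨hC.HW j v w h, hC.HW j w v h.symm⟩

theorem N_real (hC : ClsH H Gh O W VH A nd pr d D r a β C C')
    (h0 : Mt0H H S cl O VH X nd pr d D r a ε1 ρ1 L N0) (hN : Mt1 S cl W nd N0 N) {b : Fin P} {v : V}
    (h : N b v ≠ v) (hv : v ∈ W) (hw : N b v ∈ W) : (H (cl b)).Adj v (N b v) := by
  by_cases h' : N0 b v = v
  · obtain ⟨i, s, -, -, -, h1⟩ := hN.fil b v h' h
    rcases h1 with h1 | h1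
    · exact absurd hv h1
    · exact absurd hw h1
  · rw [hN.ext b v h']
    exact (h0.NG b v h').1

theorem S_real (hC : ClsH H Gh O W VH A nd pr d D r a β C C')
    (hS : ∀ j, S j ≤ Gh j) {j : J} {v w : V} (h : (S j).Adj v w) (hv : v ∈ W) (hw : w ∈ W) :
    (H j).Adj v w := by
  by_contra hcon
  rcases hC.dum j v w (hS j h) hcon with h1 | h1
  · exact h1 hv
  · exact h1 hw

/-- an edge of a class has its ends in `A` -/
theorem N_A (hC : ClsH H Gh O W VH A nd pr d D r a β C C')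
    (h0 : Mt0H H S cl O VH X nd pr d D r a ε1 ρ1 L N0) (hN : Mt1 S cl W nd N0 N) {b : Fin P} {v : V}
    (h : N b v ≠ v) : v ∈ A (cl b) := by
  by_cases h' : N0 b v = v
  · obtain ⟨i, s, h1, -⟩ := hN.fil b v h' h
    exact (hC.wld (cl b)).nA v (by rw [h1]; simp)
  · exact (hC.wld (cl b)).sup v _ ((hC.wld (cl b)).HG (h0.NG b v h').1)

/-- reserves of different classes and matchings are disjoint -/
theorem NS_all (hC : ClsH H Gh O W VH A nd pr d D r a β C C')
    (hS : ∀ j, S j ≤ Gh j)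
    (h0 : Mt0H H S cl O VH X nd pr d D r a ε1 ρ1 L N0) (hN : Mt1 S cl W nd N0 N) (b : Fin P) (v : V)
    (j : J) : ¬ (S j).Adj v (N b v) := by
  intro hadj
  have hne : N b v ≠ v := fun h => (S j).loopless.irrefl v (by rw [h] at hadj; exact hadj)
  by_cases hj : j = cl b
  · subst hj
    by_cases h' : N0 b v = v
    · obtain ⟨i, s, -, -, h1, -⟩ := hN.fil b v h' hne
      exact h1 hadj
    · rw [hN.ext b v h'] at hadj
      exact (h0.NG b v h').2 hadj
  · have hA1 : v ∈ A (cl b) := N_A hC h0 hN hne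
    have hne' : N b (N b v) ≠ N b v := by
      rw [hN.NN]
      exact fun h => hne h.symm
    have hA2 : N b v ∈ A (cl b) := N_A hC h0 hN hne'
    have hB1 : v ∈ A j := (hC.wld j).sup v _ (hS j hadj)
    have hB2 : N b v ∈ A j := (hC.wld j).sup _ _ (hS j hadj).symm
    by_cases hv : v ∈ W
    · by_cases hw : N b v ∈ W
      · exact hC.dis j (cl b) v _ hj (S_real hC hS hadj hv hw) (N_real hC h0 hN hne hv hw)
      · exact hj (hC.one j (cl b) _ hw hB2 hA2)
    · exact hj (hC.one j (cl b) _ hv hB1 hA1)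

theorem SS_all (hC : ClsH H Gh O W VH A nd pr d D r a β C C')
    (hS : ∀ j, S j ≤ Gh j) (j j' : J) (v w : V) (hj : j ≠ j') (h : (S j).Adj v w) :
    ¬ (S j').Adj v w := by
  intro h'
  have hA1 : v ∈ A j := (hC.wld j).sup v _ (hS j h)
  have hA2 : w ∈ A j := (hC.wld j).sup w _ (hS j h).symm
  have hB1 : v ∈ A j' := (hC.wld j').sup v _ (hS j' h')
  have hB2 : w ∈ A j' := (hC.wld j').sup w _ (hS j' h').symm
  by_cases hv : v ∈ W
  · by_cases hw : w ∈ W
    · exact hC.dis j j' v w hj (S_real hC hS h hv hw) (S_real hC hS h' hv hw)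
    · exact hj (hC.one j j' _ hw hA2 hB2)
  · exact hj (hC.one j j' _ hv hA1 hB1)

/-- size of the signed numbers -/
theorem sgn_le (hC : ClsH H Gh O W VH A nd pr d D r a β C C')
    (hD : ∀ j, 1 ≤ D j) (h2 : ∀ j, 2 * r j ≤ D j)
    (h0 : Mt0H H S cl O VH X nd pr d D r a ε1 ρ1 L N0) (b : Fin P) (i : I) :
    ((sgn (nd (cl b)) N0 i b).natAbs : ℝ) ≤ sp d a + 4 := by
  have h3 := h0.win b i
  have h4 := hC.bal (cl b) i
  have hD1 : (1 : ℝ) ≤ D (cl b) := by exact_mod_cast hD (cl b)
  have hr1 : 2 * (r (cl b) : ℝ) ≤ D (cl b) := by exact_mod_cast h2 (cl b)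
  have hpos : 0 < (D (cl b) : ℝ) - r (cl b) := by linarith
  have h5 : |sdg (H (cl b)) (nd (cl b)) i / ((D (cl b) : ℝ) - r (cl b))| ≤ 4 := by
    rw [abs_div, abs_of_pos hpos, div_le_iff₀ hpos]
    linarith
  rw [Nat.cast_natAbs, Int.cast_abs]
  calc |((sgn (nd (cl b)) N0 i b : ℤ) : ℝ)|
      = |((sgn (nd (cl b)) N0 i b : ℝ) - sdg (H (cl b)) (nd (cl b)) i /
          ((D (cl b) : ℝ) - r (cl b))) + sdg (H (cl b)) (nd (cl b)) i /
          ((D (cl b) : ℝ) - r (cl b))| := by
        congr 1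
        ring
    _ ≤ _ := abs_add_le _ _
    _ ≤ sp d a + 4 := add_le_add h3 h5

/-- unfilled vertices seen from one vertex -/
theorem unf_card (hC : ClsH H Gh O W VH A nd pr d D r a β C C')
    (hS : ∀ j, S j ≤ Gh j) (hD : ∀ j, 1 ≤ D j) (h2 : ∀ j, 2 * r j ≤ D j)
    (h0 : Mt0H H S cl O VH X nd pr d D r a ε1 ρ1 L N0) (hN : Mt1 S cl W nd N0 N) (b : Fin P) (v : V) :
    (((nb (S (cl b)) v).filter fun x => x ∉ O ∧ N b x = x).card : ℝ) ≤ sp d a + 4 := by
  by_cases hne : ((nb (S (cl b)) v).filter fun x => x ∉ O ∧ N b x = x) = ∅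
  · rw [hne, card_empty]
    have : 0 ≤ sp d a := Real.rpow_nonneg (Nat.cast_nonneg _) _
    push_cast
    linarith
  · have key : ∀ x, x ∈ ((nb (S (cl b)) v).filter fun x => x ∉ O ∧ N b x = x) →
        ∃ i s, nd (cl b) v = some (i, s) ∧ nd (cl b) x = some (i, !s) := by
      intro x hx
      rw [mem_filter, mem_nb'] at hx
      obtain ⟨h3, h4, h5⟩ := hx
      have h6 := hS (cl b) h3
      have hxA : x ∈ A (cl b) := (hC.wld (cl b)).sup x v h6.symm
      have hnd : nd (cl b) x ≠ none := fun h => h4 (((hC.wld (cl b)).cov x hxA).2 h)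
      have hxW : x ∉ W := hN.ful b x hnd h5
      have hH : ¬ (H (cl b)).Adj v x := fun h => hxW (hC.HW _ _ _ h.symm)
      exact (hC.wld (cl b)).gad v x h6 hH
    obtain ⟨x0, hx0⟩ := nonempty_iff_ne_empty.2 hne
    obtain ⟨i, s, hv, -⟩ := key x0 hx0
    have hsub : ((nb (S (cl b)) v).filter fun x => x ∉ O ∧ N b x = x) ⊆
        (nod (nd (cl b)) i).filter fun x => N b x = x := by
      intro x hx
      obtain ⟨i', s', h3, h4⟩ := key x hx
      rw [hv] at h3
      have h5 := Option.some.inj h3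
      have h6 : i = i' := congrArg Prod.fst h5
      rw [mem_filter] at hx ⊢
      refine ⟨?_, hx.2.2⟩
      unfold nod
      rw [mem_filter]
      exact ⟨mem_univ _, !s', by rw [h6]; exact h4⟩
    calc (((nb (S (cl b)) v).filter fun x => x ∉ O ∧ N b x = x).card : ℝ)
        ≤ ((nod (nd (cl b)) i).filter fun x => N b x = x).card := by
          exact_mod_cast card_le_card hsub
      _ = ((sgn (nd (cl b)) N0 i b).natAbs : ℝ) := by rw [hN.cnt b i]
      _ ≤ sp d a + 4 := sgn_le hC hD h2 h0 b i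

theorem cut_ne {b : Fin P} {v : V} (h : cutN Dr N b v ≠ v) :
    v ∉ Dr b ∧ cutN Dr N b v = N b v ∧ N b v ≠ v := by
  unfold cutN at h ⊢
  by_cases hv : v ∈ Dr b
  · rw [if_pos hv] at h
    exact absurd rfl h
  · rw [if_neg hv] at h ⊢
    exact ⟨hv, rfl, h⟩

theorem cut_or (Dr : Fin P → Finset V) (N : Fin P → V → V) (b : Fin P) (v : V) :
    (v ∈ Dr b ∧ cutN Dr N b v = v) ∨ (v ∉ Dr b ∧ cutN Dr N b v = N b v) := by
  unfold cutN
  by_cases hv : v ∈ Dr b
  · exact Or.inl ⟨hv, if_pos hv⟩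
  · exact Or.inr ⟨hv, if_neg hv⟩

theorem cut_NN (hNN : ∀ b v, N b (N b v) = v) (h2 : ∀ b v, v ∈ Dr b → N b v ∈ Dr b ∧ N b v ≠ v)
    (b : Fin P) (v : V) : cutN Dr N b (cutN Dr N b v) = v := by
  rcases cut_or Dr N b v with ⟨h, h'⟩ | ⟨h, h'⟩
  · rw [h', h']
  · rw [h']
    have h3 : N b v ∉ Dr b := fun h3 => h (by
      have := (h2 b _ h3).1
      rwa [hNN] at this)
    rcases cut_or Dr N b (N b v) with ⟨h4, -⟩ | ⟨-, h4⟩
    · exact absurd h4 h3
    · rw [h4, hNN]

theorem cut_Nd (hNd : ∀ b b' v, N b v ≠ v → N b v = N b' v → b = b') (b b' : Fin P) (v : V)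
    (h : cutN Dr N b v ≠ v) (h' : cutN Dr N b v = cutN Dr N b' v) : b = b' := by
  obtain ⟨h1, h2, h3⟩ := cut_ne h
  obtain ⟨h4, h5, h6⟩ := cut_ne (b := b') (by rw [← h']; exact h)
  exact hNd b b' v h3 (by rw [← h2, h', h5])

/-- the input of the engine -/
theorem allO (hC : ClsH H Gh O W VH A nd pr d D r a β C C') (hX : HDa E ⊥ VH X)
    (hP : ∀ j, (univ.filter fun b => cl b = j).card + r j = D j) (hPd : P ≤ d)
    (hdE : ∀ v, (nb E v).card ≤ d)
    (hR : ∀ j, ResH (H j) (Gh j) (S j) O (A j) (D j) (r j) a βS ρ2 K)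
    (h0 : Mt0H H S cl O VH X nd pr d D r a ε1 ρ1 L N0) (hN : Mt1 S cl W nd N0 N)
    (hc : Own1H E H S cl O U VH X Fb nd d r a1 C3 C2 e2 ε1 L c Dr N)
    (hD : ∀ j, 1 ≤ D j) (h2 : ∀ j, 2 * r j ≤ D j) (K0 T0 : ℕ) (hK2 : 3 ≤ K0)
    (hJd : ∑ j, ((r j : ℝ) + 2) ≤ d) (hK0 : sp d a1 ≤ K0) (hKC : 2 * C' ≤ K0)
    (hT0 : 2 * sp d a1 + 4 ≤ T0) (hsp : sp d a ≤ sp d a1) :
    AllO (GG E O S N) S cl O A (nnj nd) d K0 T0 T0 r (ocH c X) (cutN Dr N) := by
  have hS : ∀ j, S j ≤ Gh j := fun j => (hR j).sub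
  have hsp0 : 0 ≤ sp d a := Real.rpow_nonneg (Nat.cast_nonneg _) _
  exact {
    Pd := by omega
    rd := by
      intro j
      have := hP j
      have := (hC.Dd j).1
      omega
    dG := by
      intro v
      have h1 := GG_card E O S N v
      have h3 := hdE v
      have h4 : ((∑ j, (nb (S j) v).card : ℕ) : ℝ) ≤ d := by
        push_cast
        refine le_trans (Finset.sum_le_sum fun j _ => ?_) hJd
        exact_mod_cast (hR j).hi v
      have h5 : ∑ j, (nb (S j) v).card ≤ d := by exact_mod_cast h4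
      calc (nb (GG E O S N) v).card ≤ 3 * d := by omega
        _ ≤ K0 * d := Nat.mul_le_mul_right _ hK2
    SG := by
      intro j v w h
      exact ⟨h.ne, Or.inr (Or.inl ⟨j, h⟩)⟩
    SS := SS_all hC hS
    Sa := by
      intro j v w h
      exact (hR j).sup v w h
    dS1 := by
      intro j v hv
      have := (hR j).lo v hv
      omega
    dS2 := by
      intro j v
      have := (hR j).hi v
      omega
    c1 := by
      intro v
      have h1 : (univ.filter fun b => v ∈ ocH c X b) ⊆ (c v).toFinset ∪ X v := by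
        intro b hb
        rw [mem_filter] at hb
        have h3 := hb.2
        unfold ocH at h3
        rw [mem_filter] at h3
        rw [mem_union, Option.mem_toFinset, Option.mem_def]
        exact h3.2
      have h3 := (card_le_card h1).trans (card_union_le _ _)
      have h4 : (c v).toFinset.card ≤ 1 := by
        rw [Option.card_toFinset]
        cases c v <;> simp
      have h5 := hX.X2 v
      omega
    mts := by
      refine ⟨cut_NN hN.NN hc.Dr2, fun b v h => ?_, cut_Nd hN.Nd⟩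
      obtain ⟨-, h1, h3⟩ := cut_ne h
      rw [h1]
      exact ⟨h3.symm, Or.inr (Or.inr ⟨b, rfl, hN.NN b v⟩)⟩
    NS := by
      intro b v j
      rcases cut_or Dr N b v with ⟨-, h⟩ | ⟨-, h⟩
      · rw [h]
        exact (S j).loopless.irrefl v
      · rw [h]
        exact NS_all hC hS h0 hN b v j
    Na := by
      intro b v h
      exact N_A hC h0 hN (cut_ne h).2.2
    tk1 := by
      intro v
      have h1 := (hc.own.t1 v).trans hK0
      exact_mod_cast h1
    tk2 := by
      intro b v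
      have h1 := (hc.own.t2 b v).trans (show 2 * sp d a1 ≤ (T0 : ℝ) by linarith)
      exact_mod_cast h1
    ow := by
      intro b v
      have hsub : ((nb (S (cl b)) v).filter fun w => w ∈ ocH c X b ∨
          w ∈ fzO O (ocH c X) (cutN Dr N) b) ⊆
          ((nb (S (cl b)) v).filter fun x => x ∈ ocH c X b ∨
            (x ∉ O ∧ x ∈ losH (ocH c X) Dr N b)) ∪
          ((nb (S (cl b)) v).filter fun x => x ∉ O ∧ N b x = x) := by
        intro w hw
        rw [mem_filter] at hw
        rw [mem_union, mem_filter, mem_filter]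
        rcases hw.2 with h | h
        · exact Or.inl ⟨hw.1, Or.inl h⟩
        · unfold fzO at h
          rw [mem_filter] at h
          have hl : ∀ {x : V}, x ∈ losH (ocH c X) Dr N b ↔ (x ∈ Dr b ∨ x ∈ ocH c X b ∨
              N b x ∈ ocH c X b) := by
            intro x
            unfold losH
            rw [mem_filter]
            exact ⟨fun h => h.2, fun h => ⟨mem_univ _, h⟩⟩
          rcases h.2.2 with h' | h' | h'
          · exact Or.inl ⟨hw.1, Or.inl h'⟩
          · rcases cut_or Dr N b w with ⟨h3, -⟩ | ⟨-, h3⟩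
            · exact Or.inl ⟨hw.1, Or.inr ⟨h.2.1, hl.2 (Or.inl h3)⟩⟩
            · exact Or.inr ⟨hw.1, h.2.1, h3.symm.trans h'⟩
          · rcases cut_or Dr N b w with ⟨h3, -⟩ | ⟨-, h3⟩
            · exact Or.inl ⟨hw.1, Or.inr ⟨h.2.1, hl.2 (Or.inl h3)⟩⟩
            · rw [h3] at h'
              exact Or.inl ⟨hw.1, Or.inr ⟨h.2.1, hl.2 (Or.inr (Or.inr h'))⟩⟩
      have h1 := card_le_card hsub
      have h3 := (card_union_le ((nb (S (cl b)) v).filter fun x => x ∈ ocH c X b ∨
        (x ∉ O ∧ x ∈ losH (ocH c X) Dr N b)) ((nb (S (cl b)) v).filter fun x =>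
          x ∉ O ∧ N b x = x))
      have h4 := hc.ow b v
      have h5 := unf_card hC hS hD h2 h0 hN b v
      have h6 : ((((nb (S (cl b)) v).filter fun w => w ∈ ocH c X b ∨
          w ∈ fzO O (ocH c X) (cutN Dr N) b).card : ℕ) : ℝ)
          ≤ ((nb (S (cl b)) v).filter fun x => x ∈ ocH c X b ∨
            (x ∉ O ∧ x ∈ losH (ocH c X) Dr N b)).card +
          ((nb (S (cl b)) v).filter fun x => x ∉ O ∧ N b x = x).card := by
        exact_mod_cast h1.trans h3
      have h7 : ((((nb (S (cl b)) v).filter fun w => w ∈ ocH c X b ∨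
          w ∈ fzO O (ocH c X) (cutN Dr N) b).card : ℕ) : ℝ) ≤ T0 := by linarith
      exact_mod_cast h7
    AO := fun j => (hC.wld j).OA
    An := by
      intro j v
      have h1 : nnj nd j v ≠ none ↔ nd j v ≠ none := by
        unfold nnj
        simp
      rw [h1]
      constructor
      · intro h
        have h3 := (hC.wld j).nA v h
        exact ⟨h3, fun hO => h (((hC.wld j).cov v h3).1 hO)⟩
      · rintro ⟨h3, h4⟩ h
        exact h4 (((hC.wld j).cov v h3).2 h)
    sz := by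
      intro j i
      rw [nnj_eq j i]
      have h1 : nod (nd j) i ⊆ nsd (nd j) i false ∪ nsd (nd j) i true := by
        intro v hv
        unfold nod at hv
        rw [mem_filter] at hv
        obtain ⟨-, s, hs⟩ := hv
        rw [mem_union]
        unfold nsd
        rw [mem_filter, mem_filter]
        cases s
        · exact Or.inl ⟨mem_univ _, hs⟩
        · exact Or.inr ⟨mem_univ _, hs⟩
      have h3 := (card_le_card h1).trans (card_union_le _ _)
      have h4 := (hC.wld j).sz2 i false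
      have h5 := (hC.wld j).sz2 i true
      have h6 : ((nod (nd j) i).card : ℝ) ≤
          (nsd (nd j) i false).card + (nsd (nd j) i true).card := by
        exact_mod_cast h3
      have h7 : (D j : ℝ) ≤ d := by exact_mod_cast (hC.Dd j).1
      have h8 : (0 : ℝ) ≤ D j := Nat.cast_nonneg _
      have h9 : (0 : ℝ) ≤ K0 := Nat.cast_nonneg _
      calc ((nod (nd j) i).card : ℝ) ≤ 2 * C' * D j := by linarith
        _ ≤ K0 * D j := mul_le_mul_of_nonneg_right hKC h8
        _ ≤ K0 * d := mul_le_mul_of_nonneg_left h7 h9 }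

end Pool.Agent.Work.MP_db9399_oxh
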