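import Pool.Agent.Work.MP_db9399_oxh_helper48.AllH
import Pool.Agent.Work.MP_db9399_ox.OXC

/-! # OUTX with H, block OXCH: labels, `Km`, engine (helper48, after helper72) -/

set_option autoImplicit false
set_option linter.unusedSectionVars false

namespace Pool.Agent.Work.MP_db9399_oxh

open Finset Classical
open Pool.Agent.Work.MP_db9399_all (nb)
open Pool.Agent.Work.MP_db9399_cg (cdg pk sx sp)
open Pool.Agent.Work.MP_db9399_sg
open Pool.Agent.Work.MP_db9399_en (HH wlk resE resO Wts)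
open Pool.Agent.Work.MP_db9399_ox (sdg sgP Krn Mt1 GG nnj rcl mem_nb' GG_card nnj_eq pt qt pt_O qt_O
  pt_n qt_n pt_nonneg qt_nonneg pq_sum pq_univ tstN numC NumC mass_avg resE_wt resO_wt
  wt0_wts wt1_wts)
open Pool.Agent.Work.MP_db9399_eo
open Pool.Agent.Work.MP_db9399_h

universe u

theorem tkO_O {V : Type u} [Fintype V] {P : ℕ} {O : Finset V} {c : Fin P → Finset V}
    {N : Fin P → V → V} {b : Fin P} {x : V} (h : x ∈ tkO O c N b) : x ∈ O := by
  unfold tkO at h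
  exact (mem_filter.1 h).1

theorem tksO_O {V : Type u} [Fintype V] {P : ℕ} {O : Finset V} {c : Fin P → Finset V}
    {N : Fin P → V → V} {lab : Fin P → V → Bool} {b : Fin P} {s : Bool} {x : V}
    (h : x ∈ tksO O c N lab b s) : x ∈ O := by
  unfold tksO at h
  exact tkO_O (mem_filter.1 h).1

theorem own_mono {V J : Type u} [Fintype V] [Fintype J] {P : ℕ} {G : SimpleGraph V}
    {S : J → SimpleGraph V} {cl : Fin P → J} {O : Finset V} {d : ℕ} {r : J → ℕ} {a C C' : ℝ}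
    {c : Fin P → Finset V} {N : Fin P → V → V} (h : OwnO G S cl O d r a C c N) (hC : C ≤ C') :
    OwnO G S cl O d r a C' c N :=
  ⟨h.t1, h.t2, h.o1, fun j y => (h.av j y).trans (mul_le_mul_of_nonneg_right hC
    (Nat.cast_nonneg _)), h.l1, fun j y => (h.lv j y).trans (mul_le_mul_of_nonneg_right hC
    (Nat.cast_nonneg _))⟩

/-- **OXCH** -/
theorem stmt_OXCH (hK : Stmt_KMLO.{u}) (hE : Stmt_ENGO.{u}) : Stmt_OXCH.{u} := by
  obtain ⟨ε₀, c₀, C₀, dE, hε₀, hε₁, hc₀, hC₀, hEng⟩ := hE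
  refine ⟨ε₀, C₀, hε₀, hε₁, hC₀, ?_⟩
  intro a a1 C C1 C3 ε ha haa ha1 haε hC4 hC1 hC31 hε hεle
  have ha1p : 0 < a1 := ha.trans_le haa
  have hC0 : 0 < C := by linarith
  have hC1' : 1 ≤ C := by linarith
  obtain ⟨Ck, hCk⟩ : ∃ Ck, Ck = max (max C (C * C1)) C3 := ⟨_, rfl⟩
  have hCkC : C ≤ Ck := by rw [hCk]; exact (le_max_left _ _).trans (le_max_left _ _)
  have hCkC1 : C * C1 ≤ Ck := by rw [hCk]; exact (le_max_right _ _).trans (le_max_left _ _)
  have hCkC3 : C3 ≤ Ck := by rw [hCk]; exact le_max_right _ _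
  obtain ⟨ρ, hρ, hρ1, hKml⟩ := hK a1 Ck ha1p ha1 (by linarith)
  obtain ⟨η, hη⟩ : ∃ η, η = c₀ * ρ * ε / (3 * C) := ⟨_, rfl⟩
  have hη0 : 0 < η := by rw [hη]; positivity
  obtain ⟨eK, dK, heK, hKml⟩ := hKml η hη0
  refine ⟨eK / C, min 1 η, by positivity, lt_min one_pos hη0, min_le_left _ _, ?_⟩
  intro β C' C2 ρ1 βS ρ2
  obtain ⟨d1, hd1⟩ := numC a1 ε₀ C C' 0 ρ ε ha1p ha1 haε hC1' hρ hε
  obtain ⟨d2, hd2⟩ := numC a ε₀ C C' 0 ρ ε ha (haa.trans ha1) (haa.trans haε)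
    hC1' hρ hε
  refine ⟨max (max dE dK) (max d1 d2), ?_⟩
  intro V I I' J _ _ _ _ P cl E H Gh S O W U VH K A X Fb nd pr d D r L N0 N c Dr hd hCl hX hP hPd
    hdE hEW hHE hout hL2 hL hR hKrn h0 hN hc
  have hdE' : dE ≤ d := le_trans (by simp) hd
  have hdK : dK ≤ d := le_trans (by simp) hd
  have hn := hd1 d (le_trans (by simp) hd)
  have hn0 := hd2 d (le_trans (by simp) hd)
  have hd1' := hn.d1
  have hdp : (0 : ℝ) < d := by linarith
  have hrd1 : ∀ j, (d : ℝ) ^ (1 - a1) ≤ r j := fun j =>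
    (Real.rpow_le_rpow_of_exponent_le hd1' (by linarith)).trans (hCl.rd j)
  have hL1 : (L : ℝ) ≤ (d : ℝ) ^ (a1 / 30) :=
    hL.trans (Real.rpow_le_rpow_of_exponent_le hd1' (by linarith))
  have hD1 : ∀ j, 1 ≤ D j := fun j => (hn0.D2 (D j) (hCl.Dd j).2).1
  have hrle : ∀ j, r j ≤ d := by
    intro j
    have h1 := hP j
    have h2 := (hCl.Dd j).1
    omega
  have h2r : ∀ j, 2 * r j ≤ D j := by
    intro j
    have h1 := (hn0.D2 (D j) (hCl.Dd j).2).2
    have h2 := (hCl.rr j).2.2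
    have h3 : 2 * (r j : ℝ) ≤ D j := by linarith
    exact_mod_cast h3
  have hr1 : ∀ j, 1 ≤ r j := by
    intro j
    have h1 := hCl.rd j
    have h2 : (1 : ℝ) ≤ (d : ℝ) ^ (1 - a) := Real.one_le_rpow hd1' (by linarith)
    have h3 : (1 : ℝ) ≤ r j := h2.trans h1
    exact_mod_cast h3
  have hJd : ∑ j, ((r j : ℝ) + 2) ≤ d := by
    calc ∑ j, ((r j : ℝ) + 2) ≤ ∑ _j : J, (d : ℝ) ^ (1 - a / 3) := by
          refine Finset.sum_le_sum fun j _ => ((hCl.rr j).2.2).trans ?_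
          refine Real.rpow_le_rpow (Nat.cast_nonneg _) ?_ (by linarith)
          exact_mod_cast (hCl.Dd j).1
      _ = (Fintype.card J : ℝ) * (d : ℝ) ^ (1 - a / 3) := by
          rw [Finset.sum_const, nsmul_eq_mul, card_univ]
      _ ≤ C * (d : ℝ) ^ (1 - a / 3) :=
          mul_le_mul_of_nonneg_right hCl.Jc (Real.rpow_nonneg hdp.le _)
      _ ≤ d := hn0.r3
  have hspp : 0 ≤ sp d a1 := Real.rpow_nonneg hdp.le _
  have hSG : ∀ j, S j ≤ Gh j := fun j => (hR j).sub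
  have hspm : sp d a ≤ sp d a1 := Real.rpow_le_rpow_of_exponent_le hd1' (by linarith)
  have hAll := allO (T0 := ⌈(d : ℝ) ^ (a1 / 5)⌉₊) hCl hX hP hPd hdE hR h0 hN hc hD1 h2r
    ⌈(d : ℝ) ^ (a1 / 5)⌉₊ hn.k3 hJd hn.ksp hn.kC' (by
      have := hn.kT
      linarith) hspm
  have hOwn := own_mono hc.own hCkC3
  have hGd : ∀ v, ((nb (GG E O S N) v).card : ℝ) ≤ Ck * d := by
    intro v
    have h1 := GG_card E O S N v
    have h3 := hdE v
    have h4 : ((∑ j, (nb (S j) v).card : ℕ) : ℝ) ≤ d := by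
      push_cast
      refine le_trans (Finset.sum_le_sum fun j _ => ?_) hJd
      exact_mod_cast (hR j).hi v
    have h5 : ∑ j, (nb (S j) v).card ≤ d := by exact_mod_cast h4
    have h6 : (nb (GG E O S N) v).card ≤ 3 * d := by omega
    have h7 : ((nb (GG E O S N) v).card : ℝ) ≤ 3 * d := by exact_mod_cast h6
    nlinarith
  have hTst := tstN (S := S) (O := O) (L := L) (D := D) hC1' Ck eK (eK / C) ε₀ ρ ε hCl.Jc
    (fun j => ⟨hD1 j, hCl.Dd j⟩) hr1 hrle (fun j => (hR j).hi) hKrn hC1.le (by positivity)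
    hCkC1 (by rw [mul_div_cancel₀ _ hC0.ne']) hn hL1
  have hmlt : ∀ t : J × V, ∑ x, (pt S r L O t x + qt S r L O t x) ^ 2 *
      ((univ.filter fun b => cl b = t.1 ∧ x ∈ tkO O (ocH c X) (cutN Dr N) b).card : ℝ) ≤ eK / d := by
    intro t
    rw [pq_univ t (fun y x => y ^ 2 * ((univ.filter fun b => cl b = t.1 ∧
      x ∈ tkO O (ocH c X) (cutN Dr N) b).card : ℝ)) (fun x => by norm_num)]
    refine (hc.mlt t.1 t.2).trans (div_le_div_of_nonneg_right ?_ hdp.le)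
    exact div_le_self heK.le hC1'
  have htok : ∀ (t : J × V) (b : Fin P), cl b = t.1 →
      ∑ x ∈ tkO O (ocH c X) (cutN Dr N) b, (pt S r L O t x + qt S r L O t x) ≤ (d : ℝ) ^ (-(3 / 4) : ℝ) := by
    intro t b hb
    rw [pq_sum t _ (fun x hx => tkO_O hx)]
    have h1 := mass_avg (S t.1) (r t.1) L (hr1 t.1) (by omega) (hR t.1).hi (tkO O (ocH c X) (cutN Dr N) b)
      (2 * sp d a1) (fun y => by
        have h2 := hOwn.t2 b y
        rw [hb] at h2
        refine le_trans (le_of_eq ?_) h2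
        congr 2) (hn.ms L (r t.1) hL1 (hrd1 t.1)) t.2
    refine h1.trans (le_trans (le_of_eq ?_) (hn.tk (r t.1) (hrd1 t.1)))
    ring
  obtain ⟨Km, lab, -, hKm, hlab, -⟩ := hKml P (GG E O S N) S cl O A (nnj nd) d
    ⌈(d : ℝ) ^ (a1 / 5)⌉₊ ⌈(d : ℝ) ^ (a1 / 5)⌉₊ ⌈(d : ℝ) ^ (a1 / 5)⌉₊ r Prod.fst (pt S r L O)
    (qt S r L O) (cutN Dr N) (ocH c X) K K hdK hAll hOwn
    (hCl.Jc.trans hCkC) hGd hrd1 (fun j => (hR j).K1) (Finset.Subset.refl K)
    (fun j v hv hvK => by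
      have h1 := (hR j).K2 v hv hvK
      have h2 : (0 : ℝ) ≤ r j := Nat.cast_nonneg _
      linarith)
    (fun j v hv => by
      have h1 := (hR j).K3 v hv
      have h2 : (0 : ℝ) ≤ r j := Nat.cast_nonneg _
      have h3 : (nb (S j) v \ K) = (nb (S j) v).filter fun w => w ∉ K := by
        ext w
        rw [mem_sdiff, mem_filter]
      rw [h3] at h1
      linarith)
    (fun t x => pt_nonneg t x) (fun t x => qt_nonneg t x) hTst hmlt htok
  refine ⟨Km, ?_⟩
  have hW : ∀ j v, (Fintype.card J : ℝ) * ∑ b with cl b = j,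
      resQ (S j) (r j) (2 * L) (wt0 L) (wt1 L) O (ocH c X)
      (cutN Dr N) lab b v ≤ c₀ * ρ * ε := by
    intro j v
    have h1 : ∀ b, resQ (S j) (r j) (2 * L) (wt0 L) (wt1 L) O (ocH c X)
      (cutN Dr N) lab b v = ∑ s : Bool,
        |∑ x ∈ tksO O (ocH c X) (cutN Dr N) lab b s, pt S r L O (j, v) x -
          ∑ x ∈ tksO O (ocH c X) (cutN Dr N) lab b (!s), qt S r L O (j, v) x| := by
      intro b
      unfold resQ
      refine Finset.sum_congr rfl fun s _ => ?_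
      rw [resE_wt (S j) (r j) L (by omega), resO_wt, abs_zero, add_zero]
      congr 2
      · exact Finset.sum_congr rfl fun x hx => (pt_O (t := (j, v)) (tksO_O hx)).symm
      · exact Finset.sum_congr rfl fun x hx => (qt_O (t := (j, v)) (tksO_O hx)).symm
    simp_rw [h1]
    have h2 := hlab (j, v)
    have h3 : ∑ b with cl b = j, |∑ x ∈ tkO O (ocH c X) (cutN Dr N) b, (pt S r L O (j, v) x - qt S r L O (j, v) x)| =
        ∑ b with cl b = j, |∑ x ∈ tkO O (ocH c X) (cutN Dr N) b,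
          (k0 (S j) (r j) L v x - k1 (S j) (r j) L v x)| := by
      refine Finset.sum_congr rfl fun b _ => ?_
      congr 1
      refine Finset.sum_congr rfl fun x hx => ?_
      rw [pt_O (tkO_O hx), qt_O (tkO_O hx)]
    have h4 := hc.tst j v
    have h5 : ∑ b with cl b = j, |∑ x ∈ O.filter (fun x => N b x = x),
        (k0 (S j) (r j) L v x - k1 (S j) (r j) L v x)| =
        ∑ b with cl b = j, |∑ x ∈ O.filter (fun x => N0 b x = x),
        (k0 (S j) (r j) L v x - k1 (S j) (r j) L v x)| := by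
      refine Finset.sum_congr rfl fun b _ => ?_
      congr 1
      refine Finset.sum_congr ?_ fun _ _ => rfl
      ext x
      rw [mem_filter, mem_filter]
      constructor
      · rintro ⟨h, h'⟩
        rw [N_O hCl hN h] at h'
        exact ⟨h, h'⟩
      · rintro ⟨h, h'⟩
        rw [← N_O hCl hN h] at h'
        exact ⟨h, h'⟩
    have h6 := h0.tst j v
    have h7 : min 1 η ≤ η := min_le_right _ _
    have h8 : ∑ b with cl b = j, ∑ s : Bool,
        |∑ x ∈ tksO O (ocH c X) (cutN Dr N) lab b s, pt S r L O (j, v) x -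
          ∑ x ∈ tksO O (ocH c X) (cutN Dr N) lab b (!s), qt S r L O (j, v) x| ≤ 3 * η := by
      refine h2.trans ?_
      simp only
      rw [h3]
      linarith
    have h9 : 0 ≤ ∑ b with cl b = j, ∑ s : Bool,
        |∑ x ∈ tksO O (ocH c X) (cutN Dr N) lab b s, pt S r L O (j, v) x -
          ∑ x ∈ tksO O (ocH c X) (cutN Dr N) lab b (!s), qt S r L O (j, v) x| :=
      Finset.sum_nonneg fun _ _ => Finset.sum_nonneg fun _ _ => abs_nonneg _
    calc _ ≤ C * (3 * η) := mul_le_mul hCl.Jc h8 h9 hC0.le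
      _ = c₀ * ρ * ε := by
          rw [hη]
          field_simp
  have hk3 : (3 : ℝ) ≤ ⌈(d : ℝ) ^ (a1 / 5)⌉₊ := by exact_mod_cast hn.k3
  refine hEng P (GG E O S N) S cl O A (nnj nd) d ⌈(d : ℝ) ^ (a1 / 5)⌉₊ ⌈(d : ℝ) ^ (a1 / 5)⌉₊ (2 * L)
    r ρ ε (rcl N0) (ocH c X) (cutN Dr N) K Km lab (wt0 L) (wt1 L) hAll hKm (wt0_wts L (by omega)) (wt1_wts L hL2)
    hdE' ?_ ?_ ?_ hρ1 hε hεle ?_ hn.kε hn.kε ?_ hn.eρ hn.eε hW
  · have := hn.k3
    omega
  · have h1 := hCl.Jc.trans hn.kC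
    exact_mod_cast h1
  · have := hn.k3
    omega
  · intro j
    refine le_trans ?_ (hCl.rd j)
    exact Real.rpow_le_rpow_of_exponent_le hd1' (by linarith)
  · push_cast
    refine le_trans ?_ hn.xε
    linarith

end Pool.Agent.Work.MP_db9399_oxh
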